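import Pool.Agent.V5helper66.LD.Stm

/-!
Job `CF` of the project LD: the recursion along continued fractions.
-/

open Finset

namespace V5helper69.LD

open V5LD

/-! ## counting -/

theorem card_le_of_diam (s : Finset ℕ) (D : ℝ) (hD : 0 ≤ D)
    (h : ∀ b ∈ s, ∀ b' ∈ s, (b : ℝ) - b' ≤ D) : (s.card : ℝ) ≤ D + 1 := by
  rcases s.eq_empty_or_nonempty with rfl | hne
  · simp; linarith
  · have hsub : s ⊆ Icc (s.min' hne) (s.max' hne) :=
      fun x hx => mem_Icc.2 ⟨s.min'_le x hx, s.le_max' x hx⟩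
    have h1 := card_le_card hsub
    rw [Nat.card_Icc] at h1
    have h2 := h _ (s.max'_mem hne) _ (s.min'_mem hne)
    have h3 : s.min' hne ≤ s.max' hne := s.min'_le _ (s.max'_mem hne)
    have h4 : (s.card : ℝ) + (s.min' hne : ℝ) ≤ (s.max' hne : ℝ) + 1 := by
      have : s.card + s.min' hne ≤ s.max' hne + 1 := by omega
      exact_mod_cast this
    linarith

/-- the remainder -/
def uu (M : ℕ) (sg : ℤ) (p q b : ℕ) : ℤ := sg * ((p : ℤ) * M - (q : ℤ) * b)

/-- the set of the `b` with remainder between `0` and `M / X`. -/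
def G (M : ℕ) (sg : ℤ) (p q X : ℕ) : Finset ℕ :=
  (range M).filter (fun b => 0 ≤ uu M sg p q b ∧ (X : ℤ) * uu M sg p q b ≤ M)

/-- the cylinder. -/
def J (M : ℕ) (sg : ℤ) (p q q' : ℕ) : Finset ℕ :=
  (range M).filter (fun b => 0 ≤ uu M sg p q b ∧ ((q : ℤ) + q') * uu M sg p q b < M)

theorem card_G (M : ℕ) (sg : ℤ) (hsg : sg = 1 ∨ sg = -1) (p q X : ℕ) (hq : 0 < q) (hX : 0 < X) :
    ((G M sg p q X).card : ℝ) ≤ (M : ℝ) / (q * X) + 1 := by
  apply card_le_of_diam
  · positivity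
  intro b hb b' hb'
  rw [G, mem_filter] at hb hb'
  obtain ⟨-, h1, h2⟩ := hb
  obtain ⟨-, h3, h4⟩ := hb'
  have hq' : (0 : ℝ) < q := by exact_mod_cast hq
  have hX' : (0 : ℝ) < X := by exact_mod_cast hX
  rw [le_div_iff₀ (by positivity)]
  have key : (((b : ℤ) - b') * (q * X) : ℤ) ≤ M := by
    unfold uu at h1 h2 h3 h4
    have hX1 : (0 : ℤ) < X := by exact_mod_cast hX
    rcases hsg with rfl | rfl
    · nlinarith
    · nlinarith
  have key' : ((((b : ℤ) - b') * (q * X) : ℤ) : ℝ) ≤ ((M : ℤ) : ℝ) := by exact_mod_cast key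
  push_cast at key'
  linarith

theorem J_subset_G (M : ℕ) (sg : ℤ) (p q q' : ℕ) : J M sg p q q' ⊆ G M sg p q (q + q') := by
  intro b hb
  rw [J, mem_filter] at hb
  rw [G, mem_filter]
  refine ⟨hb.1, hb.2.1, ?_⟩
  push_cast
  exact hb.2.2.le

/-! ## the partial sums -/

open Classical in
/-- part of `cfsum` with denominators at least `q`. -/
noncomputable def SS (M K : ℕ) (t1 t2 : ℝ) (q b : ℕ) : ℝ :=
  ∑ p ∈ ((Finset.Icc 1 K) ×ˢ (Finset.range (K + 1))).filter (fun p => q ≤ p.1 ∧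
    (Nat.Coprime p.1 p.2 ∧ t1 ≤ wt M b p.1 p.2 ∧ wt M b p.1 p.2 ≤ t2)), wt M b p.1 p.2

theorem SS_one (M K : ℕ) (t1 t2 : ℝ) (b : ℕ) : SS M K t1 t2 1 b = cfsum M K t1 t2 b := by
  unfold SS cfsum
  apply Finset.sum_congr
  · apply Finset.filter_congr
    intro p hp
    rw [mem_product, mem_Icc] at hp
    constructor
    · rintro ⟨-, h⟩; exact h
    · intro h; exact ⟨hp.1.1, h⟩
  · intros; rfl

theorem SS_nonneg (M K : ℕ) (t1 t2 : ℝ) (ht1 : 0 ≤ t1) (q b : ℕ) : 0 ≤ SS M K t1 t2 q b := by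
  unfold SS
  apply Finset.sum_nonneg
  intro p hp
  rw [mem_filter] at hp
  linarith [hp.2.2.2.1]

theorem SS_anti (M K : ℕ) (t1 t2 : ℝ) (ht1 : 0 ≤ t1) (q Q b : ℕ) (h : q ≤ Q) :
    SS M K t1 t2 Q b ≤ SS M K t1 t2 q b := by
  unfold SS
  apply Finset.sum_le_sum_of_subset_of_nonneg
  · intro p hp
    rw [mem_filter] at hp ⊢
    exact ⟨hp.1, h.trans hp.2.1, hp.2.2⟩
  · intro p hp _
    rw [mem_filter] at hp
    linarith [hp.2.2.2.1]

theorem SS_add (M K : ℕ) (t1 t2 : ℝ) (ht1 : 0 ≤ t1) (q Q b p : ℕ) (h : q < Q) (hq : 1 ≤ q)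
    (hqK : q ≤ K) (hpq : p ≤ q) (hcop : Nat.Coprime q p) (h1 : t1 ≤ wt M b q p)
    (h2 : wt M b q p ≤ t2) :
    wt M b q p + SS M K t1 t2 Q b ≤ SS M K t1 t2 q b := by
  classical
  unfold SS
  have hnot : (q, p) ∉ ((Finset.Icc 1 K) ×ˢ (Finset.range (K + 1))).filter (fun p => Q ≤ p.1 ∧
    (Nat.Coprime p.1 p.2 ∧ t1 ≤ wt M b p.1 p.2 ∧ wt M b p.1 p.2 ≤ t2)) := by
    rw [mem_filter]
    rintro ⟨-, h', -⟩
    simp only at h'
    omega
  have := Finset.sum_insert (f := fun p : ℕ × ℕ => wt M b p.1 p.2) hnot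
  simp only at this
  rw [← this]
  apply Finset.sum_le_sum_of_subset_of_nonneg
  · intro r hr
    rw [mem_insert] at hr
    rcases hr with rfl | hr
    · rw [mem_filter, mem_product, mem_Icc, mem_range]
      refine ⟨⟨⟨hq, hqK⟩, ?_⟩, le_rfl, hcop, h1, h2⟩
      simp only
      omega
    · rw [mem_filter] at hr ⊢
      exact ⟨hr.1, h.le.trans hr.2.1, hr.2.2⟩
  · intro r hr _
    rw [mem_filter] at hr
    linarith [hr.2.2.2.1]

/-! ## the step -/

/-- a state of the recursion. -/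
structure St (sg : ℤ) (p q p' q' : ℕ) : Prop where
  sgn : sg = 1 ∨ sg = -1
  det : sg * ((p : ℤ) * q' - p' * q) = 1
  q1 : 1 ≤ q
  qq : q' ≤ q
  pq : p ≤ q
  pp : p + p' ≤ q + q'

theorem St.next {sg : ℤ} {p q p' q' : ℕ} (h : St sg p q p' q') (t : ℕ) (ht : 1 ≤ t) :
    St (-sg) (t * p + p') (t * q + q') p q where
  sgn := by rcases h.sgn with h | h <;> simp [h]
  det := by
    have := h.det
    push_cast
    linear_combination this
  q1 := by nlinarith [h.q1]
  qq := by nlinarith [h.q1]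
  pq := by
    obtain ⟨s, rfl⟩ : ∃ s, t = s + 1 := ⟨t - 1, by omega⟩
    nlinarith [h.pq, h.pp]
  pp := by nlinarith [h.pq, h.pp]

theorem St.cop {sg : ℤ} {p q p' q' : ℕ} (h : St sg p q p' q') : Nat.Coprime q p := by
  rw [← Nat.isCoprime_iff_coprime]
  refine ⟨-(sg * p'), sg * q', ?_⟩
  linear_combination h.det

theorem uu_next {sg : ℤ} {p q p' q' : ℕ} (h : St sg p q p' q') (M t b : ℕ) :
    (q : ℤ) * uu M (-sg) (t * p + p') (t * q + q') b =
      M - ((t : ℤ) * q + q') * uu M sg p q b := by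
  unfold uu
  push_cast
  linear_combination (M : ℤ) * h.det

theorem mem_J_next {sg : ℤ} {p q p' q' : ℕ} (h : St sg p q p' q') (M t b : ℕ) (ht : 1 ≤ t) :
    b ∈ J M (-sg) (t * p + p') (t * q + q') q ↔
      b ∈ range M ∧ ((t : ℤ) * q + q') * uu M sg p q b ≤ M ∧
        (M : ℤ) < (((t : ℤ) + 1) * q + q') * uu M sg p q b := by
  rw [J, mem_filter]
  have hu := uu_next h M t b
  set u := uu M sg p q b
  set u' := uu M (-sg) (t * p + p') (t * q + q') b
  have hq : (0 : ℤ) < q := by exact_mod_cast h.q1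
  have ht' : (1 : ℤ) ≤ t := by exact_mod_cast ht
  have hq' : (0 : ℤ) ≤ q' := by positivity
  have hQ : (0 : ℤ) < (t : ℤ) * q + q' := by positivity
  refine and_congr_right fun _ => ?_
  push_cast
  constructor
  · rintro ⟨h1, h2⟩
    refine ⟨by nlinarith, ?_⟩
    have h3 : ((t : ℤ) * q + q') * M < ((t : ℤ) * q + q') * ((((t : ℤ) + 1) * q + q') * u) := by
      nlinarith
    exact lt_of_mul_lt_mul_left h3 hQ.le
  · rintro ⟨h1, h2⟩
    constructor
    · by_contra hneg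
      push Not at hneg
      nlinarith
    · have h3 : (q : ℤ) * (((t : ℤ) * q + q' + q) * u') < q * M := by
        nlinarith
      exact lt_of_mul_lt_mul_left h3 hq.le

theorem cover {sg : ℤ} {p q p' q' : ℕ} (h : St sg p q p' q') (M T b : ℕ)
    (hb : b ∈ J M sg p q q') :
    b ∈ G M sg p q ((T + 1) * q + q') ∨
      ∃ t ∈ Icc 1 T, b ∈ J M (-sg) (t * p + p') (t * q + q') q := by
  classical
  rw [J, mem_filter] at hb
  obtain ⟨hbM, hu0, hu1⟩ := hb
  by_cases hT : (((T : ℤ) + 1) * q + q') * uu M sg p q b ≤ M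
  · left
    rw [G, mem_filter]
    refine ⟨hbM, hu0, ?_⟩
    push_cast
    exact hT
  · right
    push Not at hT
    have hex : ∃ t : ℕ, (M : ℤ) < (((t : ℤ) + 1) * q + q') * uu M sg p q b := ⟨T, hT⟩
    set t := Nat.find hex with htdef
    have ht1 : (M : ℤ) < (((t : ℤ) + 1) * q + q') * uu M sg p q b := Nat.find_spec hex
    have htT : t ≤ T := Nat.find_min' hex hT
    have ht0 : 1 ≤ t := by
      by_contra hlt
      have : t = 0 := by omega
      rw [this] at ht1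
      push_cast at ht1
      linarith
    have hmin := Nat.find_min hex (m := t - 1) (by omega)
    push Not at hmin
    have hcast : ((t - 1 : ℕ) : ℤ) = (t : ℤ) - 1 := by
      push_cast [Nat.cast_sub ht0]; ring
    rw [hcast] at hmin
    refine ⟨t, mem_Icc.2 ⟨ht0, htT⟩, ?_⟩
    rw [mem_J_next h M t b ht0]
    refine ⟨hbM, ?_, ht1⟩
    calc ((t : ℤ) * q + q') * uu M sg p q b
        = ((((t : ℤ) - 1) + 1) * q + q') * uu M sg p q b := by ring
      _ ≤ M := hmin

/-- the weight of `p / q` on the cylinder. -/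
theorem wt_bounds {sg : ℤ} {p q p' q' : ℕ} (h : St sg p q p' q') (M t b : ℕ) (ht : 1 ≤ t)
    (hb : b ∈ J M (-sg) (t * p + p') (t * q + q') q) :
    (t : ℝ) ≤ wt M b q p ∧ wt M b q p ≤ (t : ℝ) + 2 := by
  rw [mem_J_next h M t b ht] at hb
  obtain ⟨-, h1, h2⟩ := hb
  have hq : (0 : ℤ) < q := by exact_mod_cast h.q1
  have hq' : (0 : ℤ) ≤ q' := by positivity
  have hqq : (q' : ℤ) ≤ q := by exact_mod_cast h.qq
  have ht' : (1 : ℤ) ≤ t := by exact_mod_cast ht
  have hu : 0 < uu M sg p q b := by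
    by_contra hneg
    push Not at hneg
    have : (((t : ℤ) + 1) * q + q') * uu M sg p q b ≤ 0 :=
      mul_nonpos_of_nonneg_of_nonpos (by positivity) hneg
    have hM : (0 : ℤ) ≤ M := by positivity
    linarith
  have habs : |(q : ℝ) * b - (p : ℝ) * M| = ((uu M sg p q b : ℤ) : ℝ) := by
    rcases h.sgn with hs | hs
    · have h3 : uu M sg p q b = (p : ℤ) * M - (q : ℤ) * b := by rw [uu, hs]; ring
      rw [h3] at hu ⊢
      have h4 : (0 : ℝ) < (((p : ℤ) * M - (q : ℤ) * b : ℤ) : ℝ) := by exact_mod_cast hu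
      push_cast at h4 ⊢
      rw [abs_of_neg (by linarith)]
      ring
    · have h3 : uu M sg p q b = (q : ℤ) * b - (p : ℤ) * M := by rw [uu, hs]; ring
      rw [h3] at hu ⊢
      have h4 : (0 : ℝ) < (((q : ℤ) * b - (p : ℤ) * M : ℤ) : ℝ) := by exact_mod_cast hu
      push_cast at h4 ⊢
      rw [abs_of_pos (by linarith)]
  have hwt : wt M b q p = (M : ℝ) / ((q : ℝ) * ((uu M sg p q b : ℤ) : ℝ)) := by
    unfold wt
    rw [habs]
  rw [hwt]
  set u := uu M sg p q b
  have hu' : (0 : ℝ) < (u : ℝ) := by exact_mod_cast hu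
  have hqr : (0 : ℝ) < q := by exact_mod_cast h.q1
  have h1' : ((t : ℝ) * q + q') * u ≤ M := by exact_mod_cast h1
  have h2' : (M : ℝ) < (((t : ℝ) + 1) * q + q') * u := by exact_mod_cast h2
  have hqq' : (q' : ℝ) ≤ q := by exact_mod_cast h.qq
  have hq0 : (0 : ℝ) ≤ q' := by positivity
  constructor
  · rw [le_div_iff₀ (by positivity)]
    nlinarith [mul_nonneg hq0 hu'.le]
  · rw [div_le_iff₀ (by positivity)]
    nlinarith [mul_le_mul_of_nonneg_right hqq' hu'.le]


/-! ## the real inequality -/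

/-- relative length. -/
noncomputable def om (s : ℝ) (t : ℕ) : ℝ := (1 + s) / (((t : ℝ) + s) * ((t : ℝ) + 1 + s))

theorem sum_om (s : ℝ) (hs : 0 ≤ s) (T : ℕ) :
    ∑ t ∈ Icc 1 T, om s t = 1 - (1 + s) / ((T : ℝ) + 1 + s) := by
  induction T with
  | zero =>
    have : (1 : ℝ) + s ≠ 0 := by positivity
    simp [div_self this]
  | succ n ih =>
    rw [Finset.sum_Icc_succ_top (by omega), ih, om]
    have h1 : (n : ℝ) + 1 + s ≠ 0 := by positivity
    have h2 : (n : ℝ) + 1 + 1 + s ≠ 0 := by positivity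
    push_cast
    field_simp
    ring

theorem om_nonneg (s : ℝ) (hs : 0 ≤ s) (t : ℕ) : 0 ≤ om s t := by
  unfold om; positivity

theorem om_le (s : ℝ) (hs : 0 ≤ s) (hs1 : s ≤ 1) (t : ℕ) (ht : 1 ≤ t) :
    om s t ≤ 2 / ((t : ℝ) * (t + 1)) := by
  have ht' : (1 : ℝ) ≤ t := by exact_mod_cast ht
  unfold om
  rw [div_le_div_iff₀ (by positivity) (by positivity)]
  nlinarith [mul_nonneg hs (by linarith : (0 : ℝ) ≤ t), mul_nonneg (sub_nonneg.2 hs1) (by positivity : (0 : ℝ) ≤ (t : ℝ) * (t + 1))]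

theorem le_om (s : ℝ) (hs : 0 ≤ s) (hs1 : s ≤ 1) (t : ℕ) (ht : 1 ≤ t) :
    1 / ((t : ℝ) * (t + 2)) ≤ om s t := by
  have ht' : (1 : ℝ) ≤ t := by exact_mod_cast ht
  unfold om
  rw [div_le_div_iff₀ (by positivity) (by positivity)]
  nlinarith [mul_nonneg hs (sub_nonneg.2 ht'), mul_nonneg hs (sub_nonneg.2 hs1),
    mul_nonneg hs (by nlinarith : (0 : ℝ) ≤ (t : ℝ) ^ 2 - 1)]

theorem rpow_bound (κ : ℝ) (hκ : 0 ≤ κ) (hκ1 : κ ≤ 1 / 2) (t : ℕ) :
    ((t : ℝ) + 1) ^ κ ≤ 1 + 2 * κ * (Real.sqrt ((t : ℝ) + 1) - 1) := by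
  have h0 : (0 : ℝ) ≤ (t : ℝ) + 1 := by positivity
  have h1 := rpow_one_add_le_one_add_mul_self (s := Real.sqrt ((t : ℝ) + 1) - 1)
    (by linarith [Real.sqrt_nonneg ((t : ℝ) + 1)]) (p := 2 * κ) (by linarith) (by linarith)
  have h2 : (1 + (Real.sqrt ((t : ℝ) + 1) - 1)) ^ (2 * κ) = ((t : ℝ) + 1) ^ κ := by
    rw [add_sub_cancel, Real.sqrt_eq_rpow, ← Real.rpow_mul h0]
    congr 1
    ring
  rw [h2] at h1
  exact h1

theorem term_bound (s κ : ℝ) (hs : 0 ≤ s) (hs1 : s ≤ 1) (hκ : 0 ≤ κ) (hκ1 : κ ≤ 1 / 2) (t : ℕ)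
    (ht : 1 ≤ t) :
    om s t * (((t : ℝ) + 1) ^ κ - 1) ≤
      4 * κ * (2 / Real.sqrt t - 2 / Real.sqrt ((t : ℝ) + 1)) := by
  have ht' : (1 : ℝ) ≤ t := by exact_mod_cast ht
  set x := Real.sqrt t with hx
  set y := Real.sqrt ((t : ℝ) + 1) with hy
  have hx2 : x * x = t := Real.mul_self_sqrt (by positivity)
  have hy2 : y * y = t + 1 := Real.mul_self_sqrt (by positivity)
  have hx1 : 1 ≤ x := by rw [hx]; exact Real.one_le_sqrt.2 ht'
  have hxy : x ≤ y := Real.sqrt_le_sqrt (by linarith)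
  have hy1 : 1 ≤ y := hx1.trans hxy
  have h1 : ((t : ℝ) + 1) ^ κ - 1 ≤ 2 * κ * (y - 1) := by
    linarith [rpow_bound κ hκ hκ1 t]
  have h2 : om s t * (((t : ℝ) + 1) ^ κ - 1) ≤ (2 / ((t : ℝ) * (t + 1))) * (2 * κ * (y - 1)) := by
    refine (mul_le_mul_of_nonneg_left h1 (om_nonneg s hs t)).trans ?_
    refine mul_le_mul_of_nonneg_right (om_le s hs hs1 t ht) ?_
    have : 0 ≤ y - 1 := by linarith
    positivity
  refine h2.trans ?_
  have hyx : (y - x) * (x + y) = 1 := by ring_nf; nlinarith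
  have hyx1 : y ≤ x + 1 := by nlinarith
  have key : y - 1 ≤ 2 * x * y * (y - x) := by
    have h3 : (y - 1) * (x + y) ≤ 2 * (x * y) := by nlinarith
    have h4 : 0 ≤ y - x := by linarith
    have h5 := mul_le_mul_of_nonneg_right h3 h4
    nlinarith
  have hx0 : 0 < x := by linarith
  have hy0 : 0 < y := by linarith
  rw [← hx2]
  have e1 : (x * x + 1) = y * y := by rw [hx2, hy2]
  rw [e1]
  have e2 : 2 / (x * x * (y * y)) * (2 * κ * (y - 1)) =
      (4 * κ / (x * x * (y * y))) * (y - 1) := by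
    field_simp; ring
  have e3 : 4 * κ * (2 / x - 2 / y) = (4 * κ / (x * x * (y * y))) * (2 * x * y * (y - x)) := by
    field_simp
  rw [e2, e3]
  exact mul_le_mul_of_nonneg_left key (by positivity)

theorem sum_term (s κ : ℝ) (hs : 0 ≤ s) (hs1 : s ≤ 1) (hκ : 0 ≤ κ) (hκ1 : κ ≤ 1 / 2) (T : ℕ) :
    ∑ t ∈ Icc 1 T, om s t * (((t : ℝ) + 1) ^ κ - 1) ≤ 8 * κ := by
  have h1 : ∀ n : ℕ, ∑ t ∈ Icc 1 n, om s t * (((t : ℝ) + 1) ^ κ - 1) ≤
      4 * κ * (2 - 2 / Real.sqrt ((n : ℝ) + 1)) := by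
    intro n
    induction n with
    | zero => simp
    | succ n ih =>
      rw [Finset.sum_Icc_succ_top (by omega)]
      have := term_bound s κ hs hs1 hκ hκ1 (n + 1) (by omega)
      push_cast at this ⊢
      linarith
  refine (h1 T).trans ?_
  have : 0 ≤ 2 / Real.sqrt ((T : ℝ) + 1) := by positivity
  nlinarith

/-- the contribution of one partial quotient -/
noncomputable def WW (t1 t2 : ℝ) (t : ℕ) : ℝ := 
  if t1 ≤ (t : ℝ) ∧ (t : ℝ) + 2 ≤ t2 then (t : ℝ) else 0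

theorem one_sub_exp (x : ℝ) (hx : 0 ≤ x) (hx1 : x ≤ 1) : x / 2 ≤ 1 - Real.exp (-x) := by
  have h1 : 1 + x ≤ Real.exp x := by linarith [Real.add_one_le_exp x]
  have h2 : Real.exp (-x) ≤ 1 / (1 + x) := by
    rw [Real.exp_neg, ← one_div]
    exact one_div_le_one_div_of_le (by linarith) h1
  have h3 : 1 / (1 + x) ≤ 1 - x / 2 := by
    rw [div_le_iff₀ (by linarith)]
    nlinarith
  linarith

theorem gain (s t1 t2 : ℝ) (hs : 0 ≤ s) (hs1 : s ≤ 1) (ht1 : 2 ≤ t1) (ht2 : 16 * t1 ≤ t2) (T : ℕ)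
    (hT : t2 ≤ T) :
    (1 / t2 / 4) * Real.log (t2 / t1) ≤
      ∑ t ∈ Icc 1 T, om s t * (1 - Real.exp (-(1 / t2 * WW t1 t2 t))) := by
  have hlam : 0 < 1 / t2 := by
    have : 0 < t2 := by linarith
    positivity
  have ht20 : 0 < t2 := by linarith
  set a := ⌈t1⌉₊ with ha
  set b := ⌊t2 - 2⌋₊ + 1 with hb
  have ha1 : t1 ≤ a := Nat.le_ceil t1
  have ha2 : (a : ℝ) < t1 + 1 := Nat.ceil_lt_add_one (by linarith)
  have hb1 : t2 - 2 < b := by rw [hb]; push_cast; exact Nat.lt_floor_add_one _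
  have hab : a ≤ b := by
    have : (a : ℝ) ≤ b := by linarith
    exact_mod_cast this
  have hmem : ∀ t ∈ Ico a b, t1 ≤ (t : ℝ) ∧ (t : ℝ) + 2 ≤ t2 := by
    intro t ht
    rw [mem_Ico] at ht
    constructor
    · exact ha1.trans (by exact_mod_cast ht.1)
    · have h3 : t ≤ ⌊t2 - 2⌋₊ := by omega
      have h4 : (t : ℝ) ≤ t2 - 2 := (Nat.le_floor_iff (by linarith)).1 h3
      linarith
  have hsub : Ico a b ⊆ Icc 1 T := by
    intro t ht
    obtain ⟨h1, h2⟩ := hmem t ht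
    rw [mem_Icc]
    constructor
    · have : (1 : ℝ) ≤ t := by linarith
      exact_mod_cast this
    · have : (t : ℝ) ≤ T := by linarith
      exact_mod_cast this
  have hWnn : ∀ t : ℕ, 0 ≤ WW t1 t2 t := by
    intro t; unfold WW; split_ifs <;> positivity
  have hstep : ∑ t ∈ Ico a b, om s t * (1 - Real.exp (-(1 / t2 * WW t1 t2 t))) ≤ 
      ∑ t ∈ Icc 1 T, om s t * (1 - Real.exp (-(1 / t2 * WW t1 t2 t))) := by
    apply Finset.sum_le_sum_of_subset_of_nonneg hsub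
    intro t _ _
    apply mul_nonneg (om_nonneg s hs t)
    have : Real.exp (-(1 / t2 * WW t1 t2 t)) ≤ 1 := by
      rw [Real.exp_le_one_iff]
      have := mul_nonneg hlam.le (hWnn t)
      linarith
    linarith
  refine le_trans ?_ hstep
  have hterm : ∀ t ∈ Ico a b, (1 / t2 / 2) * (Real.log (((t + 1 : ℕ) : ℝ) + 2) - Real.log ((t : ℝ) + 2))
      ≤ om s t * (1 - Real.exp (-(1 / t2 * WW t1 t2 t))) := by
    intro t ht
    obtain ⟨h1, h2⟩ := hmem t ht
    have ht0 : (2 : ℝ) ≤ t := by linarith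
    have htn : 1 ≤ t := by
      have : (1 : ℝ) ≤ t := by linarith
      exact_mod_cast this
    have hW : WW t1 t2 t = t := by unfold WW; rw [if_pos ⟨h1, h2⟩]
    rw [hW]
    have h3 := one_sub_exp (1 / t2 * t) (by positivity) (by
      rw [one_div, inv_mul_le_iff₀ ht20]; linarith)
    have h4 := le_om s hs hs1 t htn
    have h5 : (1 / ((t : ℝ) * (t + 2))) * ((1 / t2 * t) / 2) ≤
        om s t * (1 - Real.exp (-(1 / t2 * t))) :=
      mul_le_mul h4 h3 (by positivity) (om_nonneg s hs t)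
    refine le_trans ?_ h5
    have h6 : Real.log (((t + 1 : ℕ) : ℝ) + 2) - Real.log ((t : ℝ) + 2) ≤ 1 / ((t : ℝ) + 2) := by
      rw [← Real.log_div (by positivity) (by positivity)]
      refine (Real.log_le_sub_one_of_pos (by positivity)).trans ?_
      apply le_of_eq
      push_cast
      field_simp
      ring
    have h7 : (1 / ((t : ℝ) * (t + 2))) * ((1 / t2 * t) / 2) = (1 / t2 / 2) * (1 / ((t : ℝ) + 2)) := by
      field_simp
    rw [h7]
    exact mul_le_mul_of_nonneg_left h6 (by positivity)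
  refine le_trans ?_ (Finset.sum_le_sum hterm)
  rw [← Finset.mul_sum, Finset.sum_Ico_sub (fun t : ℕ => Real.log ((t : ℝ) + 2)) hab]
  have hlog : (1 / 2) * Real.log (t2 / t1) ≤ Real.log ((b : ℝ) + 2) - Real.log ((a : ℝ) + 2) := by
    have h1 : Real.log t2 ≤ Real.log ((b : ℝ) + 2) := Real.log_le_log ht20 (by linarith)
    have h2 : Real.log ((a : ℝ) + 2) ≤ Real.log (t1 + 3) := Real.log_le_log (by positivity) (by linarith)
    have h3 : Real.log ((t1 + 3) ^ 2) ≤ Real.log (t2 * t1) := 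
      Real.log_le_log (by positivity) (by nlinarith)
    rw [Real.log_pow, Real.log_mul (by linarith) (by linarith)] at h3
    rw [Real.log_div (by linarith) (by linarith)]
    push_cast at h3
    linarith
  have := mul_le_mul_of_nonneg_left hlog (by positivity : 0 ≤ 1 / t2 / 2)
  linarith

theorem main_ineq (s t1 t2 : ℝ) (K : ℕ) (hs : 0 ≤ s) (hs1 : s ≤ 1) (ht1 : 2 ≤ t1)
    (ht2 : 16 * t1 ≤ t2) (hK : 16 * t2 ≤ K) :
    ∑ t ∈ Icc 1 (K ^ 2), Real.exp (-(1 / t2 * WW t1 t2 t)) * om s t *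
        ((t : ℝ) + 1) ^ (Real.log (t2 / t1) / (64 * t2)) +
      (1 + s) / (((K ^ 2 : ℕ) : ℝ) + 1 + s) * (K : ℝ) ^ (Real.log (t2 / t1) / (64 * t2)) ≤ 1 := by
  have ht20 : 0 < t2 := by linarith
  set ℓ := Real.log (t2 / t1) with hℓ
  set κ := ℓ / (64 * t2) with hκdef
  have hℓ1 : 1 ≤ ℓ := by
    rw [hℓ, Real.le_log_iff_exp_le (by positivity)]
    have h1 : Real.exp 1 < 2.7182818286 := Real.exp_one_lt_d9
    have h2 : (16 : ℝ) ≤ t2 / t1 := by rw [le_div_iff₀ (by linarith)]; exact ht2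
    linarith
  have hℓ2 : ℓ ≤ t2 := by
    have h1 : ℓ ≤ t2 / t1 - 1 := Real.log_le_sub_one_of_pos (by positivity)
    have h2 : t2 / t1 ≤ t2 := div_le_self ht20.le (by linarith)
    linarith
  have hκ0 : 0 ≤ κ := by positivity
  have hκ1 : κ ≤ 1 / 2 := by
    rw [hκdef, div_le_iff₀ (by positivity)]
    linarith
  have hK1 : (1 : ℝ) ≤ K := by linarith
  have hT : t2 ≤ ((K ^ 2 : ℕ) : ℝ) := by push_cast; nlinarith
  have h1 : ∑ t ∈ Icc 1 (K ^ 2), Real.exp (-(1 / t2 * WW t1 t2 t)) * om s t * ((t : ℝ) + 1) ^ κ ≤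
      ∑ t ∈ Icc 1 (K ^ 2), (om s t * (((t : ℝ) + 1) ^ κ - 1) + om s t -
        om s t * (1 - Real.exp (-(1 / t2 * WW t1 t2 t)))) := by
    apply Finset.sum_le_sum
    intro t _
    have hW : 0 ≤ WW t1 t2 t := by unfold WW; split_ifs <;> positivity
    have hE : Real.exp (-(1 / t2 * WW t1 t2 t)) ≤ 1 := by
      rw [Real.exp_le_one_iff]
      have : 0 ≤ 1 / t2 * WW t1 t2 t := by positivity
      linarith
    have hA : 1 ≤ ((t : ℝ) + 1) ^ κ := Real.one_le_rpow (by linarith [(Nat.cast_nonneg t : (0 : ℝ) ≤ t)]) hκ0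
    have hom := om_nonneg s hs t
    have h3 : 0 ≤ om s t * ((((t : ℝ) + 1) ^ κ - 1) * (1 - Real.exp (-(1 / t2 * WW t1 t2 t)))) :=
      mul_nonneg hom (mul_nonneg (by linarith) (by linarith))
    nlinarith
  rw [Finset.sum_sub_distrib, Finset.sum_add_distrib, sum_om s hs] at h1
  have h2 := sum_term s κ hs hs1 hκ0 hκ1 (K ^ 2)
  have h3 := gain s t1 t2 hs hs1 ht1 ht2 (K ^ 2) hT
  rw [← hℓ] at h3
  have h4 : (1 + s) / (((K ^ 2 : ℕ) : ℝ) + 1 + s) * (K : ℝ) ^ κ ≤ 2 / K := by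
    have h5 : (K : ℝ) ^ κ ≤ K := by
      calc (K : ℝ) ^ κ ≤ (K : ℝ) ^ (1 : ℝ) := Real.rpow_le_rpow_of_exponent_le hK1 (by linarith)
        _ = K := Real.rpow_one _
    have h6 : (1 + s) / (((K ^ 2 : ℕ) : ℝ) + 1 + s) ≤ 2 / (K : ℝ) ^ 2 := by
      rw [div_le_div_iff₀ (by positivity) (by positivity)]
      push_cast
      nlinarith [sq_nonneg (K : ℝ)]
    calc (1 + s) / (((K ^ 2 : ℕ) : ℝ) + 1 + s) * (K : ℝ) ^ κ ≤ 2 / (K : ℝ) ^ 2 * K :=
          mul_le_mul h6 h5 (by positivity) (by positivity)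
      _ = 2 / K := by field_simp
  have h5 : 2 / (K : ℝ) ≤ 1 / t2 / 8 * ℓ := by
    have h6 : 2 / (K : ℝ) ≤ 1 / t2 / 8 := by
      rw [div_div, div_le_div_iff₀ (by linarith) (by positivity)]
      linarith
    calc 2 / (K : ℝ) ≤ 1 / t2 / 8 * 1 := by linarith
      _ ≤ 1 / t2 / 8 * ℓ := mul_le_mul_of_nonneg_left hℓ1 (by positivity)
  have h6 : 8 * κ = 1 / t2 / 8 * ℓ := by
    rw [hκdef]; field_simp; norm_num
  have h7 : 0 ≤ (1 + s) / (((K ^ 2 : ℕ) : ℝ) + 1 + s) := by positivity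
  linarith


/-! ## the induction -/

theorem sum_cover {sg : ℤ} {p q p' q' : ℕ} (h : St sg p q p' q') (M T : ℕ) (f : ℕ → ℝ)
    (hf : ∀ b, 0 ≤ f b) :
    ∑ b ∈ J M sg p q q', f b ≤ ∑ b ∈ G M sg p q ((T + 1) * q + q'), f b +
      ∑ t ∈ Icc 1 T, ∑ b ∈ J M (-sg) (t * p + p') (t * q + q') q, f b := by
  classical
  have h1 : ∀ S : Finset ℕ, S ⊆ range M →
      ∑ b ∈ S, f b = ∑ b ∈ range M, if b ∈ S then f b else 0 := by
    intro S hS
    rw [← Finset.sum_filter]
    congr 1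
    ext b
    rw [mem_filter]
    exact ⟨fun hb => ⟨hS hb, hb⟩, fun hb => hb.2⟩
  have hJ : ∀ (sg : ℤ) (p q q' : ℕ), J M sg p q q' ⊆ range M := fun _ _ _ _ => filter_subset _ _
  have hG : ∀ (sg : ℤ) (p q q' : ℕ), G M sg p q q' ⊆ range M := fun _ _ _ _ => filter_subset _ _
  rw [h1 _ (hJ _ _ _ _), h1 _ (hG _ _ _ _), Finset.sum_congr rfl (fun t _ => h1 _ (hJ _ _ _ _)),
    Finset.sum_comm, ← Finset.sum_add_distrib]
  apply Finset.sum_le_sum
  intro b _
  have hnn : ∀ S : Finset ℕ, 0 ≤ (if b ∈ S then f b else 0) := by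
    intro S; split_ifs
    · exact hf b
    · exact le_rfl
  by_cases hb : b ∈ J M sg p q q'
  · rw [if_pos hb]
    rcases cover h M T b hb with h2 | ⟨t, ht, h2⟩
    · rw [if_pos h2]
      have := Finset.sum_nonneg (s := Icc 1 T)
        (f := fun t => if b ∈ J M (-sg) (t * p + p') (t * q + q') q then f b else 0)
        (fun t _ => hnn _)
      linarith
    · have h3 := Finset.single_le_sum (s := Icc 1 T)
        (f := fun t => if b ∈ J M (-sg) (t * p + p') (t * q + q') q then f b else 0)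
        (fun t _ => hnn _) ht
      simp only [if_pos h2] at h3
      have := hnn (G M sg p q ((T + 1) * q + q'))
      linarith
  · rw [if_neg hb]
    have := Finset.sum_nonneg (s := Icc 1 T)
      (f := fun t => if b ∈ J M (-sg) (t * p + p') (t * q + q') q then f b else 0)
      (fun t _ => hnn _)
    have := hnn (G M sg p q ((T + 1) * q + q'))
    linarith

theorem exp_SS_le_one (M K : ℕ) (t1 t2 : ℝ) (ht1 : 0 ≤ t1) (ht2 : 0 < t2) (q b : ℕ) :
    Real.exp (-(1 / t2 * SS M K t1 t2 q b)) ≤ 1 := by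
  rw [Real.exp_le_one_iff]
  have := SS_nonneg M K t1 t2 ht1 q b
  have : 0 ≤ 1 / t2 * SS M K t1 t2 q b := by positivity
  linarith

/-- the estimate for one partial quotient. -/
theorem exp_step {sg : ℤ} {p q p' q' : ℕ} (h : St sg p q p' q') (M K : ℕ) (t1 t2 : ℝ)
    (ht1 : 2 ≤ t1) (ht2 : 0 < t2) (hqK : q ≤ K) (t b : ℕ) (ht : 1 ≤ t)
    (hb : b ∈ J M (-sg) (t * p + p') (t * q + q') q) :
    Real.exp (-(1 / t2 * SS M K t1 t2 q b)) ≤
      Real.exp (-(1 / t2 * WW t1 t2 t)) * Real.exp (-(1 / t2 * SS M K t1 t2 (t * q + q') b)) := by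
  rw [← Real.exp_add, Real.exp_le_exp]
  have key : WW t1 t2 t + SS M K t1 t2 (t * q + q') b ≤ SS M K t1 t2 q b := by
    have hq1 := h.q1
    unfold WW
    split_ifs with hW
    · obtain ⟨h1, h2⟩ := wt_bounds h M t b ht hb
      have ht2' : 2 ≤ t := by
        have : (2 : ℝ) ≤ t := by linarith [hW.1]
        exact_mod_cast this
      have h3 := SS_add M K t1 t2 (by linarith) q (t * q + q') b p (by nlinarith) hq1 hqK h.pq h.cop
        (by linarith [hW.1]) (by linarith [hW.2])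
      linarith
    · have h3 := SS_anti M K t1 t2 (by linarith) q (t * q + q') b (by nlinarith)
      linarith
  have h4 := mul_le_mul_of_nonneg_left key (by positivity : 0 ≤ 1 / t2)
  linarith

theorem phi_le (M K : ℕ) (t1 t2 : ℝ) (ht1 : 2 ≤ t1) (ht2 : 16 * t1 ≤ t2) (hK : 16 * t2 ≤ K)
    (hM : 16 * (K : ℝ) ^ 6 ≤ M) : ∀ (n : ℕ) (sg : ℤ) (p q p' q' : ℕ), St sg p q p' q' →
    2 * K < q + q' + n → q ≤ (K ^ 2 + 1) * K →
    ∑ b ∈ J M sg p q q', Real.exp (-(1 / t2 * SS M K t1 t2 q b)) ≤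
      2 * M / ((q : ℝ) * (q + q')) * ((q : ℝ) / K) ^ (Real.log (t2 / t1) / (64 * t2)) := by
  have ht20 : 0 < t2 := by linarith
  have hK1 : (1 : ℝ) ≤ K := by linarith
  have hK0 : (0 : ℝ) < K := by linarith
  have hℓ0 : 0 ≤ Real.log (t2 / t1) := by
    apply Real.log_nonneg
    rw [le_div_iff₀ (by linarith)]; linarith
  set κ := Real.log (t2 / t1) / (64 * t2) with hκdef
  have hκ0 : 0 ≤ κ := by positivity
  -- the leaves
  have leaf : ∀ (sg : ℤ) (p q p' q' : ℕ), St sg p q p' q' → K < q → q ≤ (K ^ 2 + 1) * K →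
    ∑ b ∈ J M sg p q q', Real.exp (-(1 / t2 * SS M K t1 t2 q b)) ≤
      2 * M / ((q : ℝ) * (q + q')) * ((q : ℝ) / K) ^ κ := by
    intro sg p q p' q' h hq hqT
    have hq0 : 0 < q := h.q1
    have hq0' : (0 : ℝ) < q := by exact_mod_cast hq0
    have h1 : ∑ b ∈ J M sg p q q', Real.exp (-(1 / t2 * SS M K t1 t2 q b)) ≤
        ((J M sg p q q').card : ℝ) := by
      have := Finset.sum_le_card_nsmul (J M sg p q q')
        (fun b => Real.exp (-(1 / t2 * SS M K t1 t2 q b))) 1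
        (fun b _ => exp_SS_le_one M K t1 t2 (by linarith) ht20 q b)
      simpa using this
    have h2 : ((J M sg p q q').card : ℝ) ≤ (M : ℝ) / (q * (q + q' : ℕ)) + 1 := by
      refine le_trans ?_ (card_G M sg h.sgn p q (q + q') hq0 (by omega))
      exact_mod_cast card_le_card (J_subset_G M sg p q q')
    have h3 : (1 : ℝ) ≤ (M : ℝ) / (q * (q + q' : ℕ)) := by
      rw [one_le_div₀ (by positivity)]
      push_cast
      have hqq : (q' : ℝ) ≤ q := by exact_mod_cast h.qq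
      have hqT' : (q : ℝ) ≤ ((K : ℝ) ^ 2 + 1) * K := by exact_mod_cast hqT
      have h4 : (q : ℝ) ≤ 2 * (K : ℝ) ^ 3 := by nlinarith [sq_nonneg (K : ℝ)]
      have h5 : (q : ℝ) * q ≤ (2 * (K : ℝ) ^ 3) * (2 * (K : ℝ) ^ 3) :=
        mul_le_mul h4 h4 hq0'.le (by positivity)
      nlinarith
    have h6 : (1 : ℝ) ≤ ((q : ℝ) / K) ^ κ := by
      apply Real.one_le_rpow _ hκ0
      rw [one_le_div₀ hK0]
      exact_mod_cast hq.le
    have h7 : (0 : ℝ) ≤ 2 * M / ((q : ℝ) * (q + q')) := by positivity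
    calc ∑ b ∈ J M sg p q q', Real.exp (-(1 / t2 * SS M K t1 t2 q b))
        ≤ (M : ℝ) / (q * (q + q' : ℕ)) + 1 := h1.trans h2
      _ ≤ 2 * ((M : ℝ) / (q * (q + q' : ℕ))) := by linarith
      _ = 2 * M / ((q : ℝ) * (q + q')) * 1 := by push_cast; ring
      _ ≤ 2 * M / ((q : ℝ) * (q + q')) * ((q : ℝ) / K) ^ κ := mul_le_mul_of_nonneg_left h6 h7
  intro n
  induction n with
  | zero =>
    intro sg p q p' q' h hn hqT
    have := h.qq
    exact leaf sg p q p' q' h (by omega) hqT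
  | succ n ih =>
    intro sg p q p' q' h hn hqT
    rcases Nat.lt_or_ge K q with hq | hq
    · exact leaf sg p q p' q' h hq hqT
    have hq0 : 0 < q := h.q1
    have hq0' : (0 : ℝ) < q := by exact_mod_cast hq0
    have hqK : (q : ℝ) ≤ K := by exact_mod_cast hq
    have hqq : (q' : ℝ) ≤ q := by exact_mod_cast h.qq
    have hq'0 : (0 : ℝ) ≤ q' := by positivity
    set T := K ^ 2 with hT
    set A := 2 * M / ((q : ℝ) * (q + q')) * ((q : ℝ) / K) ^ κ with hA
    have hA0 : 0 ≤ A := by positivity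
    set s := (q' : ℝ) / q with hs
    have hs0 : 0 ≤ s := by positivity
    have hs1 : s ≤ 1 := by rw [hs, div_le_one₀ hq0']; exact hqq
    have h1 := sum_cover h M T (fun b => Real.exp (-(1 / t2 * SS M K t1 t2 q b)))
      (fun b => (Real.exp_pos _).le)
    refine h1.trans ?_
    -- the tail
    have htail : ∑ b ∈ G M sg p q ((T + 1) * q + q'), Real.exp (-(1 / t2 * SS M K t1 t2 q b)) ≤
        A * ((1 + s) / (((K ^ 2 : ℕ) : ℝ) + 1 + s) * (K : ℝ) ^ κ) := by
      have h2 : ∑ b ∈ G M sg p q ((T + 1) * q + q'), Real.exp (-(1 / t2 * SS M K t1 t2 q b)) ≤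
          ((G M sg p q ((T + 1) * q + q')).card : ℝ) := by
        have := Finset.sum_le_card_nsmul (G M sg p q ((T + 1) * q + q'))
          (fun b => Real.exp (-(1 / t2 * SS M K t1 t2 q b))) 1
          (fun b _ => exp_SS_le_one M K t1 t2 (by linarith) ht20 q b)
        simpa using this
      have h3 := card_G M sg h.sgn p q ((T + 1) * q + q') hq0 (by positivity)
      have h4 : (1 : ℝ) ≤ (M : ℝ) / (q * ((T + 1) * q + q' : ℕ)) := by
        rw [one_le_div₀ (by positivity)]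
        rw [hT]
        push_cast
        have h5 : ((K : ℝ) ^ 2 + 1) * q + q' ≤ 3 * (K : ℝ) ^ 3 := by
          have : ((K : ℝ) ^ 2 + 1) * q + q' ≤ ((K : ℝ) ^ 2 + 1) * K + K := by
            have := mul_le_mul_of_nonneg_left hqK (by positivity : (0 : ℝ) ≤ (K : ℝ) ^ 2 + 1)
            linarith
          nlinarith [sq_nonneg (K : ℝ)]
        have h6 : (q : ℝ) * (((K : ℝ) ^ 2 + 1) * q + q') ≤ K * (3 * (K : ℝ) ^ 3) :=
          mul_le_mul hqK h5 (by positivity) hK0.le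
        have h7 : (K : ℝ) * (3 * (K : ℝ) ^ 3) ≤ 16 * (K : ℝ) ^ 6 := by
          have : (K : ℝ) ^ 4 ≤ (K : ℝ) ^ 6 := pow_le_pow_right₀ hK1 (by norm_num)
          nlinarith
        linarith
      have h8 : A * ((1 + s) / (((K ^ 2 : ℕ) : ℝ) + 1 + s) * (K : ℝ) ^ κ) =
          2 * ((M : ℝ) / (q * ((T + 1) * q + q' : ℕ))) * (q : ℝ) ^ κ := by
        rw [hA, hs, Real.div_rpow hq0'.le hK0.le, hT]
        have h9 : (0 : ℝ) < (K : ℝ) ^ κ := Real.rpow_pos_of_pos hK0 _
        have h10 : (0 : ℝ) < (K : ℝ) ^ 2 + 1 + q' / q := by positivity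
        push_cast
        have e1 : (K : ℝ) ^ 2 + 1 + q' / q = (((K : ℝ) ^ 2 + 1) * q + q') / q := by
          field_simp
        have e2 : (1 : ℝ) + q' / q = (q + q') / q := by field_simp
        rw [e1, e2]
        have h11 : (0 : ℝ) < ((K : ℝ) ^ 2 + 1) * q + q' := by positivity
        have h12 : (0 : ℝ) < (q : ℝ) + q' := by positivity
        field_simp
      have h9 : (1 : ℝ) ≤ (q : ℝ) ^ κ := Real.one_le_rpow (by exact_mod_cast hq0) hκ0
      rw [h8]
      have h10 : (0 : ℝ) ≤ 2 * ((M : ℝ) / (q * ((T + 1) * q + q' : ℕ))) := by positivity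
      calc _ ≤ (M : ℝ) / (q * ((T + 1) * q + q' : ℕ)) + 1 := h2.trans h3
        _ ≤ 2 * ((M : ℝ) / (q * ((T + 1) * q + q' : ℕ))) * 1 := by linarith
        _ ≤ _ := mul_le_mul_of_nonneg_left h9 h10
    -- the main part
    have hmain : ∀ t ∈ Icc 1 T, ∑ b ∈ J M (-sg) (t * p + p') (t * q + q') q,
        Real.exp (-(1 / t2 * SS M K t1 t2 q b)) ≤
        A * (Real.exp (-(1 / t2 * WW t1 t2 t)) * om s t * ((t : ℝ) + 1) ^ κ) := by
      intro t ht
      rw [mem_Icc] at ht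
      have ht1' : (1 : ℝ) ≤ t := by exact_mod_cast ht.1
      have h2 : ∑ b ∈ J M (-sg) (t * p + p') (t * q + q') q,
          Real.exp (-(1 / t2 * SS M K t1 t2 q b)) ≤
          Real.exp (-(1 / t2 * WW t1 t2 t)) * ∑ b ∈ J M (-sg) (t * p + p') (t * q + q') q,
            Real.exp (-(1 / t2 * SS M K t1 t2 (t * q + q') b)) := by
        rw [Finset.mul_sum]
        exact Finset.sum_le_sum fun b hb => exp_step h M K t1 t2 ht1 ht20 hq t b ht.1 hb
      have h3 := ih (-sg) (t * p + p') (t * q + q') p q (h.next t ht.1) (by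
        have : q ≤ t * q := Nat.le_mul_of_pos_left q (by omega)
        omega) (by
        have h4 : t * q + q' ≤ T * q + q := by
          have := Nat.mul_le_mul_right q ht.2
          have := h.qq
          omega
        calc t * q + q' ≤ T * q + q := h4
          _ = (K ^ 2 + 1) * q := by rw [hT]; ring
          _ ≤ (K ^ 2 + 1) * K := Nat.mul_le_mul_left _ hq)
      have h5 : 2 * M / (((t * q + q' : ℕ) : ℝ) * ((t * q + q' : ℕ) + q)) *
          (((t * q + q' : ℕ) : ℝ) / K) ^ κ ≤ A * (om s t * ((t : ℝ) + 1) ^ κ) := by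
        have h6 : (((t * q + q' : ℕ) : ℝ) / K) ^ κ ≤ ((q : ℝ) / K) ^ κ * ((t : ℝ) + 1) ^ κ := by
          rw [← Real.mul_rpow (by positivity) (by positivity)]
          apply Real.rpow_le_rpow (by positivity) _ hκ0
          rw [div_mul_eq_mul_div]
          apply div_le_div_of_nonneg_right _ hK0.le
          push_cast
          nlinarith
        have h7 : 2 * M / (((t * q + q' : ℕ) : ℝ) * ((t * q + q' : ℕ) + q)) =
            2 * M / ((q : ℝ) * (q + q')) * om s t := by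
          rw [om, hs]
          push_cast
          have e1 : (t : ℝ) + q' / q = (t * q + q') / q := by field_simp
          have e2 : (1 : ℝ) + q' / q = (q + q') / q := by field_simp
          have e3 : (t : ℝ) + 1 + q' / q = (t * q + q' + q) / q := by field_simp; ring
          rw [e1, e2, e3]
          have h12 : (0 : ℝ) < (q : ℝ) + q' := by positivity
          have h13 : (0 : ℝ) < (t : ℝ) * q + q' := by positivity
          have h14 : (0 : ℝ) < (t : ℝ) * q + q' + q := by positivity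
          field_simp
        rw [h7]
        have h8 : 0 ≤ 2 * M / ((q : ℝ) * (q + q')) * om s t := by
          have := om_nonneg s hs0 t
          positivity
        calc _ ≤ 2 * M / ((q : ℝ) * (q + q')) * om s t *
              (((q : ℝ) / K) ^ κ * ((t : ℝ) + 1) ^ κ) := mul_le_mul_of_nonneg_left h6 h8
          _ = A * (om s t * ((t : ℝ) + 1) ^ κ) := by rw [hA]; ring
      calc _ ≤ Real.exp (-(1 / t2 * WW t1 t2 t)) * ∑ b ∈ J M (-sg) (t * p + p') (t * q + q') q,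
            Real.exp (-(1 / t2 * SS M K t1 t2 (t * q + q') b)) := h2
        _ ≤ Real.exp (-(1 / t2 * WW t1 t2 t)) * (A * (om s t * ((t : ℝ) + 1) ^ κ)) :=
            mul_le_mul_of_nonneg_left (h3.trans h5) (Real.exp_pos _).le
        _ = _ := by ring
    have h2 := add_le_add htail (Finset.sum_le_sum hmain)
    refine h2.trans ?_
    rw [← Finset.mul_sum, ← mul_add]
    have h3 := main_ineq s t1 t2 K hs0 hs1 ht1 ht2 hK
    rw [← hκdef] at h3
    calc _ ≤ A * 1 := by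
          apply mul_le_mul_of_nonneg_left _ hA0
          rw [add_comm]
          exact h3
      _ = A := mul_one _

theorem t_CF : S_CF := by
  refine ⟨1 / 128, by norm_num, 16, by norm_num, ?_⟩
  intro M K t1 t2 ht1 ht2 hK hM
  have ht20 : 0 < t2 := by linarith
  have hK1 : (1 : ℝ) ≤ K := by linarith
  have hK0 : (0 : ℝ) < K := by linarith
  have hst : St (-1) 0 1 1 0 := by
    constructor
    · right; rfl
    · norm_num
    · exact le_rfl
    · omega
    · omega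
    · omega
  have hK1' : 1 ≤ K := by exact_mod_cast hK1
  have h1 := phi_le M K t1 t2 ht1 ht2 hK hM (2 * K) (-1) 0 1 1 0 hst (by omega) (by nlinarith)
  have hJ : J M (-1) 0 1 0 = range M := by
    unfold J uu
    ext b
    simp only [mem_filter, mem_range]
    constructor
    · exact fun h => h.1
    · intro h
      refine ⟨h, ?_, ?_⟩
      · push_cast; linarith [(Nat.cast_nonneg b : (0 : ℤ) ≤ b)]
      · push_cast
        have : (b : ℤ) < M := by exact_mod_cast h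
        linarith
  rw [hJ] at h1
  simp only [SS_one] at h1
  set κ := Real.log (t2 / t1) / (64 * t2) with hκdef
  set ℓ := Real.log (t2 / t1) with hℓ
  set s0 := 1 / 128 * (ℓ * Real.log K) with hs0
  classical
  have h2 : (((Finset.range M).filter (fun b => cfsum M K t1 t2 b < s0)).card : ℝ) ≤
      ∑ b ∈ range M, Real.exp (1 / t2 * s0) * Real.exp (-(1 / t2 * cfsum M K t1 t2 b)) := by
    have h3 : (((Finset.range M).filter (fun b => cfsum M K t1 t2 b < s0)).card : ℝ) =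
        ∑ b ∈ (Finset.range M).filter (fun b => cfsum M K t1 t2 b < s0), (1 : ℝ) := by simp
    rw [h3]
    refine le_trans ?_ (Finset.sum_le_sum_of_subset_of_nonneg
      (filter_subset (fun b => cfsum M K t1 t2 b < s0) (range M)) (fun b _ _ => by positivity))
    apply Finset.sum_le_sum
    intro b hb
    rw [mem_filter] at hb
    rw [← Real.exp_add]
    apply Real.one_le_exp
    have h4 := mul_le_mul_of_nonneg_left hb.2.le (by positivity : 0 ≤ 1 / t2)
    linarith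
  rw [← Finset.mul_sum] at h2
  have h5 := mul_le_mul_of_nonneg_left h1 (Real.exp_pos (1 / t2 * s0)).le
  have h6 : ((1 : ℕ) / (K : ℝ)) ^ κ = Real.exp (-(κ * Real.log K)) := by
    rw [Real.rpow_def_of_pos (by positivity)]
    congr 1
    rw [Nat.cast_one, one_div, Real.log_inv]
    ring
  rw [h6] at h5
  have h7 : Real.exp (1 / t2 * s0) * (2 * (M : ℝ) / (((1 : ℕ) : ℝ) * (((1 : ℕ) : ℝ) + ((0 : ℕ) : ℝ))) *
      Real.exp (-(κ * Real.log K))) = 2 * M * Real.exp (-(s0) / t2) := by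
    have e1 : Real.exp (-(s0) / t2) = Real.exp (1 / t2 * s0) * Real.exp (-(κ * Real.log K)) := by
      rw [← Real.exp_add]
      congr 1
      rw [hκdef, hs0]
      field_simp
      ring
    rw [e1]
    push_cast
    ring
  rw [h7] at h5
  have h8 : 2 * (M : ℝ) * Real.exp (-s0 / t2) ≤ 16 * M * Real.exp (-s0 / t2) := by
    have : 0 ≤ (M : ℝ) * Real.exp (-s0 / t2) := by positivity
    linarith
  rw [neg_div] at h5 h8
  exact (h2.trans h5).trans h8

end V5helper69.LD
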